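import Pool.Agent.Y661.GL.Stm
import Pool.Agent.Helper757.GL.Main

set_option autoImplicit false

/-! The Glimm ideals of a C*-algebra intersect in zero. -/

open scoped ComplexOrder

noncomputable section

universe u

namespace Pool.Agent.Y297.GL

open Pool.Agent.Helper757.GL

variable {B : Type u} [CStarAlgebra B]

/-- the cut-off of a self-adjoint element at the level `r` -/
def pp (r : ℝ) (y : B) : B := cfc (fun t : ℝ => max (t - r) 0) y

/-- multiplication with the cut-off -/
theorem mul_pp (r : ℝ) (y : B) (hy : IsSelfAdjoint y) :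
    y * pp r y = pp r y * pp r y + r • pp r y := by
  have hc : ContinuousOn (fun t : ℝ => max (t - r) 0) (spectrum ℝ y) := by fun_prop
  unfold pp
  calc y * cfc (fun t : ℝ => max (t - r) 0) y
      = cfc (fun t : ℝ => t) y * cfc (fun t : ℝ => max (t - r) 0) y := by rw [cfc_id' ℝ y]
    _ = cfc (fun t : ℝ => t * max (t - r) 0) y := (cfc_mul _ _ y).symm
    _ = cfc (fun t : ℝ => max (t - r) 0 * max (t - r) 0 + r * max (t - r) 0) y := by
        refine cfc_congr fun t _ => ?_
        rcases le_total (t - r) 0 with h | h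
        · simp [max_eq_right h]
        · simp only [max_eq_left h]
          ring
    _ = cfc (fun t : ℝ => max (t - r) 0) y * cfc (fun t : ℝ => max (t - r) 0) y +
        r • cfc (fun t : ℝ => max (t - r) 0) y := by
        rw [cfc_add (a := y) (f := fun t : ℝ => max (t - r) 0 * max (t - r) 0)
          (g := fun t : ℝ => r * max (t - r) 0), cfc_mul _ _ y, cfc_const_mul r _ y]

/-- the cut-off of an element near one -/
theorem pp_eq (y : B) (hy : IsSelfAdjoint y) :
    pp (1 / 4) y = algebraMap ℝ B (3 / 4) +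
      (y - 1) * cfc (fun t : ℝ => (3 / 4) / max (1 - t) (3 / 4)) y := by
  have hg : Continuous (fun t : ℝ => (3 / 4 : ℝ) / max (1 - t) (3 / 4)) := by
    refine Continuous.div continuous_const (by fun_prop) fun t => ?_
    have : (3 / 4 : ℝ) ≤ max (1 - t) (3 / 4) := le_max_right _ _
    linarith
  have h1 : y - 1 = cfc (fun t : ℝ => t - 1) y := by
    rw [cfc_sub (fun t : ℝ => t) (fun _ : ℝ => (1 : ℝ)) y, cfc_id' ℝ y, cfc_const (1 : ℝ) y, map_one]
  rw [h1, ← cfc_mul (fun t : ℝ => t - 1) _ y (by fun_prop) hg.continuousOn,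
    ← cfc_const_add (3 / 4 : ℝ) _ y (by
      exact (Continuous.mul (by fun_prop) hg).continuousOn)]
  unfold pp
  refine cfc_congr fun t _ => ?_
  rcases le_total (1 - t) (3 / 4) with h | h
  · show max (t - 1 / 4) 0 = 3 / 4 + (t - 1) * ((3 / 4) / max (1 - t) (3 / 4))
    rw [max_eq_right h, max_eq_left (by linarith)]
    ring
  · show max (t - 1 / 4) 0 = 3 / 4 + (t - 1) * ((3 / 4) / max (1 - t) (3 / 4))
    have h0 : (1 - t) ≠ 0 := by linarith
    rw [max_eq_left h, max_eq_right (by linarith)]
    field_simp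
    ring

section order

variable [PartialOrder B] [StarOrderedRing B]

theorem pp_nonneg (r : ℝ) (y : B) : 0 ≤ pp r y := cfc_nonneg fun _ _ => le_max_right _ _

/-- the cut-offs are orthogonal -/
theorem prod_zero (y E : B) (hy : 0 ≤ y) (hE : 0 ≤ E) (hyc : ∀ x, Commute y x) (η : ℝ)
    (hη : 0 < η) (h : ‖y * E‖ < η) : pp (1 / 4) y * pp (4 * η) E = 0 := by
  set a := pp (1 / 4) y with ha
  set b := pp (4 * η) E with hb
  have ha0 : 0 ≤ a := pp_nonneg _ _
  have hb0 : 0 ≤ b := pp_nonneg _ _
  have hac : ∀ x, Commute a x := fun x => (hyc x).cfc_real _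
  have hx0 : 0 ≤ a * b := Commute.mul_nonneg ha0 hb0 (hac b)
  have k1 := mul_pp (1 / 4) y (IsSelfAdjoint.of_nonneg hy)
  have k2 := mul_pp (4 * η) E (IsSelfAdjoint.of_nonneg hE)
  rw [← ha] at k1
  rw [← hb] at k2
  have haa : 0 ≤ a * a := Commute.mul_nonneg ha0 ha0 (Commute.refl a)
  have hbb : 0 ≤ b * b := Commute.mul_nonneg hb0 hb0 (Commute.refl b)
  have haac : ∀ x, Commute (a * a) x := fun x => (hac x).mul_left (hac x)
  have e1 : (y * E) * (a * b) = (a * a) * (b * b) + (4 * η) • ((a * a) * b) +
      (1 / 4 : ℝ) • (a * (b * b)) + η • (a * b) := by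
    have e2 : (y * E) * (a * b) = (y * a) * (E * b) := by
      rw [mul_assoc y E, ← mul_assoc E a b, ← (hac E).eq, mul_assoc a E b, ← mul_assoc y a]
    rw [e2, k1, k2, add_mul, mul_add, mul_add, smul_mul_assoc, smul_mul_assoc, mul_smul_comm,
      mul_smul_comm, smul_smul]
    have e3 : (1 / 4 : ℝ) * (4 * η) = η := by ring
    rw [e3]
    abel
  have hle : η • (a * b) ≤ (y * E) * (a * b) := by
    rw [e1]
    refine le_add_of_nonneg_left (add_nonneg (add_nonneg ?_ ?_) ?_)
    · exact Commute.mul_nonneg haa hbb (haac _)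
    · exact smul_nonneg (by positivity) (Commute.mul_nonneg haa hb0 (haac _))
    · exact smul_nonneg (by norm_num) (Commute.mul_nonneg ha0 hbb (hac _))
  have hn := CStarAlgebra.norm_le_norm_of_nonneg_of_le (smul_nonneg hη.le hx0) hle
  by_contra hne
  have hpos : 0 < ‖a * b‖ := norm_pos_iff.mpr hne
  have h1 : ‖η • (a * b)‖ = η * ‖a * b‖ := by
    rw [norm_smul, Real.norm_of_nonneg hη.le]
  rw [h1] at hn
  have h2 : ‖y * E * (a * b)‖ ≤ ‖y * E‖ * ‖a * b‖ := norm_mul_le _ _
  nlinarith

/-- an element with a vanishing cut-off is small -/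
theorem norm_le_of_pp (E : B) (hE : 0 ≤ E) (r : ℝ) (hr : 0 ≤ r) (h : pp r E = 0) : ‖E‖ ≤ r := by
  rw [CStarAlgebra.norm_le_iff_le_algebraMap E hr hE]
  have hsa : IsSelfAdjoint E := IsSelfAdjoint.of_nonneg hE
  calc E = cfc (fun t : ℝ => t) E := (cfc_id' ℝ E).symm
    _ ≤ cfc (fun t : ℝ => r + max (t - r) 0) E := by
        refine cfc_mono fun t _ => ?_
        have := le_max_left (t - r) 0
        linarith
    _ = algebraMap ℝ B r + pp r E := cfc_const_add r _ E
    _ = algebraMap ℝ B r := by rw [h, add_zero]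

end order

/-- the annihilator of an element in the centre -/
def ann (b : B) : Ideal (Subalgebra.center ℂ B) where
  carrier := {z | (z : B) * b = 0}
  zero_mem' := by
    show ((0 : Subalgebra.center ℂ B) : B) * b = 0
    rw [ZeroMemClass.coe_zero, zero_mul]
  add_mem' := by
    intro x y hx hy
    have hx' : (x : B) * b = 0 := hx
    have hy' : (y : B) * b = 0 := hy
    show ((x + y : Subalgebra.center ℂ B) : B) * b = 0
    rw [AddMemClass.coe_add, add_mul, hx', hy', add_zero]
  smul_mem' := by
    intro c x hx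
    have hx' : (x : B) * b = 0 := hx
    show ((c * x : Subalgebra.center ℂ B) : B) * b = 0
    rw [MulMemClass.coe_mul, mul_assoc, hx', mul_zero]

theorem key (D : B) (h : ∀ m : Ideal (Subalgebra.center ℂ B), m.IsMaximal →
    D ∈ closedIdeal (carrier m)) (δ : ℝ) (hδ : 0 < δ) : ‖D‖ ^ 2 ≤ 4 * (3 * δ) ^ 2 := by
  let _ := CStarAlgebra.spectralOrder B
  let _ := CStarAlgebra.spectralOrderedRing B
  have hE : 0 ≤ star D * D := star_mul_self_nonneg D
  have hη : 0 < (3 * δ) ^ 2 := by positivity
  have hN : ann (pp (4 * (3 * δ) ^ 2) (star D * D)) = ⊤ := by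
    by_contra hne
    obtain ⟨m, hm, hNm⟩ := Ideal.exists_le_maximal _ hne
    obtain ⟨v, hv1, hv2, hv3⟩ := small_of_mem_closedIdeal m (h m hm) δ hδ
    set sv : Subalgebra.center ℂ B := ⟨star (v : B), star_center v.2⟩ with hsv
    have hsvc : (sv : B) = star (v : B) := rfl
    set w : Subalgebra.center ℂ B := v + sv - sv * v with hw
    have hwc : (w : B) = (v : B) + star (v : B) - star (v : B) * v := rfl
    have hw1 : w - 1 ∈ m := by
      have e : w - 1 = (1 - sv) * (v - 1) := by
        apply Subtype.ext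
        show (v : B) + star (v : B) - star (v : B) * v - 1 = (1 - star (v : B)) * ((v : B) - 1)
        noncomm_ring
      rw [e]
      exact m.mul_mem_left _ hv1
    have hws : star (w : B) = w := by
      rw [hwc, star_sub, star_add, star_star, star_mul, star_star]
      abel
    have hsD : ‖star (v : B) * D‖ < δ := by
      have e1 : star (star (v : B) * D) * (star (v : B) * D) = star ((v : B) * D) * ((v : B) * D) := by
        rw [star_mul, star_star, star_mul]
        have e2 : star D * (v : B) * (star (v : B) * D) = star D * ((v : B) * star (v : B)) * D := by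
          simp only [mul_assoc]
        have e3 : star D * star (v : B) * ((v : B) * D) = star D * (star (v : B) * (v : B)) * D := by
          simp only [mul_assoc]
        rw [e2, e3, center_comm v (star (v : B))]
      have e4 : ‖star (v : B) * D‖ * ‖star (v : B) * D‖ = ‖(v : B) * D‖ * ‖(v : B) * D‖ := by
        rw [← CStarRing.norm_star_mul_self, ← CStarRing.norm_star_mul_self, e1]
      have e5 : ‖star (v : B) * D‖ = ‖(v : B) * D‖ := by
        have := (mul_self_inj (norm_nonneg _) (norm_nonneg _)).mp e4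
        exact this
      rw [e5]
      exact hv3
    have hwD : ‖(w : B) * D‖ < 3 * δ := by
      have e1 : (w : B) * D = (v : B) * D + star (v : B) * D - star (v : B) * ((v : B) * D) := by
        rw [hwc, sub_mul, add_mul, mul_assoc]
      have e2 : ‖star (v : B) * ((v : B) * D)‖ ≤ ‖(v : B) * D‖ := by
        refine (norm_mul_le _ _).trans ?_
        rw [norm_star]
        nlinarith [norm_nonneg ((v : B) * D)]
      rw [e1]
      calc _ ≤ ‖(v : B) * D + star (v : B) * D‖ + ‖star (v : B) * ((v : B) * D)‖ := norm_sub_le _ _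
        _ ≤ ‖(v : B) * D‖ + ‖star (v : B) * D‖ + ‖(v : B) * D‖ := by
            have := norm_add_le ((v : B) * D) (star (v : B) * D)
            linarith
        _ < 3 * δ := by linarith
    set y : Subalgebra.center ℂ B := w * w with hy
    have hyc : (y : B) = (w : B) * w := rfl
    have hy1 : y - 1 ∈ m := by
      have e : y - 1 = (w + 1) * (w - 1) := by
        apply Subtype.ext
        show (w : B) * w - 1 = ((w : B) + 1) * ((w : B) - 1)
        noncomm_ring
      rw [e]
      exact m.mul_mem_left _ hw1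
    have hy0 : 0 ≤ (y : B) := by
      have := star_mul_self_nonneg (w : B)
      rwa [hws] at this
    have hyE : ‖(y : B) * (star D * D)‖ < (3 * δ) ^ 2 := by
      have e1 : (y : B) * (star D * D) = star ((w : B) * D) * ((w : B) * D) := by
        rw [star_mul, hws, hyc]
        have e2 : (w : B) * (w : B) * (star D * D) = ((w : B) * ((w : B) * star D)) * D := by
          simp only [mul_assoc]
        have e3 : star D * (w : B) * ((w : B) * D) = (star D * (w : B) * (w : B)) * D := by
          simp only [mul_assoc]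
        rw [e2, e3, center_comm w (star D), ← mul_assoc, center_comm w (star D)]
      rw [e1, CStarRing.norm_star_mul_self, sq]
      have := norm_nonneg ((w : B) * D)
      nlinarith
    have hcomm : ∀ x, Commute (y : B) x := fun x => center_comm y x
    have hz := prod_zero (y : B) (star D * D) hy0 hE hcomm _ hη hyE
    have hcen : ∀ f : ℝ → ℝ, cfc f (y : B) ∈ Subalgebra.center ℂ B := by
      intro f
      rw [Subalgebra.mem_center_iff]
      intro x
      exact ((hcomm x).cfc_real f).eq.symm
    set a : Subalgebra.center ℂ B := ⟨pp (1 / 4) (y : B), hcen _⟩ with ha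
    have ham : a ∈ m := hNm (show (a : B) * _ = 0 from hz)
    set g : Subalgebra.center ℂ B :=
      ⟨cfc (fun t : ℝ => (3 / 4) / max (1 - t) (3 / 4)) (y : B), hcen _⟩ with hg
    have hag : algebraMap ℂ (Subalgebra.center ℂ B) (3 / 4) = a - (y - 1) * g := by
      apply Subtype.ext
      show algebraMap ℂ B (3 / 4) = pp (1 / 4) (y : B) - ((y : B) - 1) *
        cfc (fun t : ℝ => (3 / 4) / max (1 - t) (3 / 4)) (y : B)
      rw [pp_eq (y : B) (IsSelfAdjoint.of_nonneg hy0), add_sub_cancel_right,
        IsScalarTower.algebraMap_apply ℝ ℂ B]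
      congr 1
      simp
    have h34 : algebraMap ℂ (Subalgebra.center ℂ B) (3 / 4) ∈ m := by
      rw [hag]
      exact m.sub_mem ham (m.mul_mem_right _ hy1)
    have h1m : (1 : Subalgebra.center ℂ B) ∈ m := by
      have e : (1 : Subalgebra.center ℂ B) = algebraMap ℂ (Subalgebra.center ℂ B) (4 / 3) *
          algebraMap ℂ (Subalgebra.center ℂ B) (3 / 4) := by
        rw [← map_mul]
        norm_num
      rw [e]
      exact m.mul_mem_left _ h34
    exact hm.ne_top ((Ideal.eq_top_iff_one m).mpr h1m)
  have h1 : (1 : Subalgebra.center ℂ B) ∈ ann (pp (4 * (3 * δ) ^ 2) (star D * D)) := by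
    rw [hN]; trivial
  have h2 : pp (4 * (3 * δ) ^ 2) (star D * D) = 0 := by
    have : ((1 : Subalgebra.center ℂ B) : B) * pp (4 * (3 * δ) ^ 2) (star D * D) = 0 := h1
    rwa [OneMemClass.coe_one, one_mul] at this
  have h3 := norm_le_of_pp (star D * D) hE _ (by positivity) h2
  rwa [CStarRing.norm_star_mul_self, ← sq] at h3

/-- The Glimm ideals of a C*-algebra intersect in zero. -/
theorem int (D : B) (h : ∀ m : Ideal (Subalgebra.center ℂ B), m.IsMaximal →
    D ∈ closedIdeal (carrier m)) : D = 0 := by
  by_contra hne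
  have hpos : 0 < ‖D‖ := norm_pos_iff.mpr hne
  have h1 := key D h (‖D‖ / 7) (by positivity)
  nlinarith

/-- INT -/
theorem main : Pool.Agent.Y661.GL.S_INT.{u} := fun _ _ D h => int D h

end Pool.Agent.Y297.GL
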